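import Pool.Agent.H611R4.Asym

/-!
# Approximating the circuit size of partial tables with few NOT gates

A partial truth table `T` of arity `n`, given by the `2 ^ (n + 1)` bits telling whether the value `b` is allowed at
`x` (`allowed T`); `N = 2 ^ n`. Circuits for such tables consist of AND and OR gates of fan-in two
and of arbitrary further gates, of arbitrary fan-in, with any number of outputs and computing
arbitrary functions (NOT gates, for instance). A randomised circuit is a family of functions `f z`,
`z` being uniformly distributed over a finite set `Z`. `Helped s K f` says that for all `z` the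
function `f z` is computed by at most `s` AND and OR gates from constants, the input bits and the
wires of one of finitely many circuits `C i` which have at most `s` AND gates, OR gates and wires
into the further gates; the further gates are few: the sum over all `i` of `∏ (a + 1) - 1`, the
product ranging over the further gates of `C i`, `a` being the fan-in, is less than `K`. For
instance, `K = 1` if every `f z` has a monotone circuit with at most `s` gates, and `K = 2 ^ t` if
there are `t` NOT gates, which do not depend on `z`.

Let `0 ≤ α`, `0 < δ`, `α + δ ≤ 1`. There is `c > 0` such that for all sufficiently large `n`,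
`s₀ ≥ N ^ (α + δ)`, `s₁ ≤ N ^ (1 - α - δ)` and `K ≤ N ^ α`: if the acceptance probability is at
least `p₁` on all partial tables with a consistent circuit of size at most `s₀` and at most `p₀` on
all partial tables without a consistent circuit of size at most `s₁`, where
`p₁ ≥ p₀ + N ^ (-c)`, then `s > 2 ^ (N ^ c)`.

The proof. The table is cut into `N ^ α` blocks; by a chain argument the further gates can be
removed at the price of restricting to one block (`TransferP.lean`). For one block and monotone
circuits we use the method of approximations (`Approx.lean`): the positive instances are the tables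
of random polynomials of degree at most `d` over the field with two elements, which are `2 ^ d`-wise
independent and have circuits of size `N ^ δ`; the negative ones are random tables with few entries
which are not `*`, which are hard by counting. Robust sunflowers for `k`-wise independent
distributions (`TM1.lean`, `TM2a.lean`, `TM2b.lean`, `TSUN.lean`) make the approximations work.
-/

namespace Pool.Agent.Results.MP_d2e5f8_lc.GapNegations

open Pool.Agent.H589R2 Pool.Agent.H611R3 Classical

/-- **Approximating the circuit size of partial tables with few NOT gates.** -/
theorem result (α δ : ℝ) (hα : 0 ≤ α) (hδ : 0 < δ) (hαδ : α + δ ≤ 1) :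
    ∃ c : ℝ, 0 < c ∧ ∃ n₀ : ℕ, ∀ n : ℕ, n₀ ≤ n → ∀ s₀ s₁ : ℕ,
      (2 : ℝ) ^ ((α + δ) * n) ≤ s₀ → (s₁ : ℝ) ≤ 2 ^ ((1 - α - δ) * n) →
      ∀ (Z : Type) [Fintype Z] [Nonempty Z] (s K : ℕ)
        (f : Z → ((Fin n → Bool) × Bool → Bool) → Bool) (p₀ p₁ : ℝ),
        Helped s K f → (K : ℝ) ≤ 2 ^ (α * n) → p₀ + 1 / (2 : ℝ) ^ (c * n) ≤ p₁ →
        (∀ T, PartialMCSP n s₀ T → p₁ * Fintype.card Z ≤
          ((Finset.univ.filter (fun z => f z (allowed T) = true)).card : ℝ)) →
        (∀ T, ¬ PartialMCSP n s₁ T →
          ((Finset.univ.filter (fun z => f z (allowed T) = true)).card : ℝ) ≤
            p₀ * Fintype.card Z) →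
        (2 : ℝ) ^ ((2 : ℝ) ^ (c * n)) < s :=
  Pool.Agent.H611R4.mcsp_asym α δ hα hδ hαδ

end Pool.Agent.Results.MP_d2e5f8_lc.GapNegations
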