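import Pool.Agent.H630MC.Fin

/-!
Partial MCSP with a large gap is hard for randomised circuits of monotone real gates: to tell the
tables of functions with circuits of size about `N^(1/K)` from partial tables that need circuits of
size `N^(γ/K)`, `γ < K/2`, where `N = 2^n` is the length of the table.

Proof: a point of `{0,1}^(K k)` consists of `K` blocks; the easy functions are the parities
`y(x_1) + ... + y(x_K)` of `K` lookups in a random table `y` with `2^k` entries. A partial table is
then a system of parity equations with `K` variables `y(x_i)` each, and random partial tables with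
`(2^k)^(K/2 - δ)` entries are random systems. Small circuits do not tell the full satisfiable
systems from random systems (approximation method for random parity systems), and by counting a
random partial table needs large circuits.
-/

namespace Pool.Agent.Results.MP_d2e5f8_lc.GapRandomised

open scoped Classical
open Finset H630VC H630MC Pool.Agent.H589R2

/-- Let `K ≥ 3`, `1 < γ`, `ν, ξ > 0`, `(3 K + 1) ν < K/2 - γ` and `k` large; put `n = K k`, so that
tables have `N = (2^k)^K` entries. Take a finite family of circuits `l r`, `r ∈ R`, with outputs
`f r`. The inputs of the circuits are the bits `T x = b` of the partial truth table `T` and real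
constants; the gates are arbitrary nondecreasing real functions of two values. Suppose that for every
function with a circuit of size at most `3 K 2^k + 1` at least a fraction `1/2 + ξ` of the outputs
on its total table are less than one, and that for every partial table without a consistent circuit
of size at most `S`, where `S ≤ 2^(γ k)`, at least a fraction `1/2 + ξ` of the outputs are at least
one. Then some circuit of the family has more than `2^(2^(ν k))` gates. -/
theorem result (K : ℕ) (γ ν ξ : ℝ) (hK : 3 ≤ K) (hγ : 1 < γ) (hν : 0 < ν) (hξ : 0 < ξ)
    (h : (3 * K + 1) * ν < (K : ℝ) / 2 - γ) :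
    ∃ N : ℕ, ∀ k : ℕ, N ≤ k → ∀ S : ℕ, (S : ℝ) ≤ ((2 : ℝ) ^ k) ^ γ →
      ∀ (R : Type) [Fintype R] [Nonempty R]
      (l : R → List (((Fin (K * k) → Bool) → Option Bool) → ℝ))
      (f : R → ((Fin (K * k) → Bool) → Option Bool) → ℝ),
      (∀ r, Prog (tabInputs (K * k)) (l r) ∧ f r ∈ l r) →
      (∀ C : Circuit (K * k), C.size ≤ 3 * K * 2 ^ k + 1 →
        (1 / 2 + ξ) * Fintype.card R ≤
          (univ.filter fun r => f r (fun x => some (C.eval x)) < 1).card) →
      (∀ T : (Fin (K * k) → Bool) → Option Bool, ¬ PartialMCSP (K * k) S T →
        (1 / 2 + ξ) * Fintype.card R ≤ (univ.filter fun r => 1 ≤ f r T).card) →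
      ∃ r, (2 : ℝ) ^ (((2 : ℝ) ^ k) ^ ν) < (l r).length :=
  circ_gap K γ ν ξ hK hγ hν hξ h

end Pool.Agent.Results.MP_d2e5f8_lc.GapRandomised
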