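import Pool.Agent.H589R2.Assemble
import Pool.Agent.H589R2.Circ

/-!
# Partial MCSP has exponential monotone circuit complexity

Encode a partial truth table `T : {0,1}^n → {0,1,*}` by the `2 ^ (n + 1)` bits
(value `b` is allowed at `x`) (`allowed T`).  In this encoding Partial MCSP is a monotone
problem.  We prove that monotone circuits for it have at least `2 ^ (2 ^ (n / 256 - 2))` gates.
-/

namespace Pool.Agent.Results.MP_d2e5f8_lc.MonotoneExp

open Pool.Agent.H589R2

theorem pow_ge_lin : ∀ m, 10 ≤ m → 102 * m + 2 ≤ 2 ^ m := by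
  intro m hm
  induction m, hm using Nat.le_induction with
  | base => norm_num
  | succ m hm ih => rw [pow_succ]; omega

theorem pow_ge_lin' : ∀ m, 5 ≤ m → 4 * m + 4 ≤ 2 ^ m := by
  intro m hm
  induction m, hm using Nat.le_induction with
  | base => norm_num
  | succ m hm ih => rw [pow_succ]; omega

/-- **Exponential monotone lower bound for Partial MCSP.** -/
theorem result (n s : ℕ) (hn : 2560 ≤ n) (hs₁ : 2 ^ (n / 4) ≤ s) (hs₂ : s ≤ 2 ^ (n / 2))
    (D : MonoCircuit ((Fin n → Bool) × Bool))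
    (hD : ∀ T : (Fin n → Bool) → Option Bool,
      D.eval (allowed T) = true ↔ PartialMCSP n s T) :
    2 ^ 2 ^ (n / 256 - 2) ≤ D.size := by
  classical
  obtain ⟨κ, hκ⟩ : ∃ κ, κ = n / 256 := ⟨_, rfl⟩
  rw [← hκ]
  have hκ10 : 10 ≤ κ := by omega
  have hκn : 256 * κ ≤ n := by omega
  have hκn' : n < 256 * κ + 256 := by omega
  have hn4 : 4 * (n / 4) + 4 ≤ 2 ^ (n / 4) := pow_ge_lin' _ (by omega)
  have hn2 : 4 * (n / 2) + 4 ≤ 2 ^ (n / 2) := pow_ge_lin' _ (by omega)
  have h6κ : 6 * κ ≤ s := by omega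
  -- the two logarithms
  obtain ⟨b, hb⟩ : ∃ b, b = Nat.log 2 (n / 4 - 8) := ⟨_, rfl⟩
  have hb1 : 2 ^ b ≤ n / 4 - 8 := by
    rw [hb]; exact Nat.pow_log_le_self 2 (by omega)
  have hb2 : n / 4 - 8 < 2 ^ (b + 1) := by
    rw [hb]; exact Nat.lt_pow_succ_log_self (by norm_num) _
  obtain ⟨j, hj⟩ : ∃ j, j = Nat.log 2 (s / (6 * κ)) := ⟨_, rfl⟩
  have hdiv : 0 < s / (6 * κ) := Nat.div_pos h6κ (by omega)
  have hj1 : 2 ^ j ≤ s / (6 * κ) := by
    rw [hj]; exact Nat.pow_log_le_self 2 (by omega)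
  have hj2 : s / (6 * κ) < 2 ^ (j + 1) := by
    rw [hj]; exact Nat.lt_pow_succ_log_self (by norm_num) _
  have hj1' : 6 * κ * 2 ^ j ≤ s := by
    calc 6 * κ * 2 ^ j ≤ 6 * κ * (s / (6 * κ)) := Nat.mul_le_mul_left _ hj1
      _ ≤ s := Nat.mul_div_le _ _
  have hj2' : s + 1 ≤ 12 * κ * 2 ^ j := by
    have h1 : s < 2 ^ (j + 1) * (6 * κ) := (Nat.div_lt_iff_lt_mul (by omega)).1 hj2
    have h2 : 2 ^ (j + 1) * (6 * κ) = 12 * κ * 2 ^ j := by rw [pow_succ]; ring
    omega
  -- bound on α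
  have hα : b + j ≤ n / 2 + 3 := by
    have h1 : 2 ^ (b + j) * (6 * κ) ≤ (12 * 2 ^ (n / 2)) * (6 * κ) := by
      calc 2 ^ (b + j) * (6 * κ) = 2 ^ b * (6 * κ * 2 ^ j) := by rw [pow_add]; ring
        _ ≤ (n / 4 - 8) * s := Nat.mul_le_mul hb1 hj1'
        _ ≤ (72 * κ) * 2 ^ (n / 2) := Nat.mul_le_mul (by omega) hs₂
        _ = _ := by ring
    have h2 : 2 ^ (b + j) ≤ 12 * 2 ^ (n / 2) := Nat.le_of_mul_le_mul_right h1 (by omega)
    have h3 : 2 ^ (b + j) < 2 ^ (n / 2 + 4) := by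
      rw [pow_add 2 (n / 2) 4]
      have : 0 < 2 ^ (n / 2) := by positivity
      omega
    have h4 := (Nat.pow_lt_pow_iff_right (by norm_num : 1 < 2)).1 h3
    omega
  obtain ⟨β, hβ⟩ : ∃ β, n = (b + j) + β := ⟨n - (b + j), by omega⟩
  have hβ104 : 104 * κ ≤ β := by omega
  have hlow : 2 ^ 2 ^ (κ - 2) ≤ D.size := by
    refine lowerBound n (b + j) β κ (102 * κ) hβ (by omega) (smallF n s) ?_ ?_ ?_ D ?_
    · -- membership
      intro g c hg hc
      have hdep : ∀ l, c l ∈ dep n (b + j) := hc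
      -- total cost
      have c1 : Cost (∅ : Set (Fn n)) {fun _ => false} 1 := Cost.false' (by omega)
      have c2 : Cost ({fun _ => false} : Set (Fn n)) (dep n b) (6 * 2 ^ 2 ^ b) :=
        cost_dep b (by omega)
      have c12 := c1.trans (c2.mono Set.subset_union_right (le_refl _) (le_refl _))
      have htrue : Cost ({fun _ => false} : Set (Fn n)) {fun _ => true} 0 := by
        have h : Cost ({fun _ => false} : Set (Fn n)) {fun _ => false} 0 :=
          Cost.sub (le_refl _)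
        exact h.neg
      have c3 : Cost (({fun _ => false} : Set (Fn n)) ∪ dep n b)
          {fun x => decide ((fun l => g l x) = (fun l => c l x))}
          (κ * (rc n (κ - 1) + (3 * 2 ^ j - 3) + 4)) := by
        refine cost_eqs (htrue.mono Set.subset_union_left (le_refl _) (le_refl _)) κ g c _ _
          (fun l => (cost_RM n (κ - 1) (le_refl _) (g l) (hg l)).mono
            Set.subset_union_left (le_refl _) (le_refl _))
          (fun l => (cost_tree j (by omega) (c l) (hdep l)).mono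
            Set.subset_union_right (le_refl _) (le_refl _))
      have c4 := c12.trans (c3.mono Set.subset_union_right (le_refl _) (le_refl _))
      obtain ⟨s', hs', p', -, h2⟩ := c4 0 Gates.nil (Set.empty_subset _)
      obtain ⟨l, hl⟩ := h2 (Or.inr rfl)
      simp only [smallF, Finset.mem_filter, Finset.mem_univ, true_and]
      refine ⟨⟨s', p', l⟩, ?_, ?_⟩
      · show s' ≤ s
        refine hs'.trans ?_
        -- numerics
        have e1 : 2 ^ 2 ^ b ≤ 2 ^ (n / 4 - 8) := Nat.pow_le_pow_right (by norm_num) hb1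
        have e2 : κ * (rc n (κ - 1) + 4) ≤ 2 ^ (n / 4 - 3) := by
          calc κ * (rc n (κ - 1) + 4) ≤ 2 ^ κ * 2 ^ (4 * (κ - 1) + 3 + n / 8) :=
                Nat.mul_le_mul Nat.lt_two_pow_self.le (rc_le n (κ - 1))
            _ = 2 ^ (κ + (4 * (κ - 1) + 3 + n / 8)) := by rw [← pow_add]
            _ ≤ 2 ^ (n / 4 - 3) := Nat.pow_le_pow_right (by norm_num) (by omega)
        have e3 : 2 ^ (n / 4) = 256 * 2 ^ (n / 4 - 8) := by
          rw [show (256 : ℕ) = 2 ^ 8 by norm_num, ← pow_add]; congr 1; omega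
        have e4 : 2 ^ (n / 4 - 3) = 32 * 2 ^ (n / 4 - 8) := by
          rw [show (32 : ℕ) = 2 ^ 5 by norm_num, ← pow_add]; congr 1; omega
        have e5 : 1 ≤ 2 ^ (n / 4 - 8) := Nat.one_le_two_pow
        have e6 : κ * (rc n (κ - 1) + (3 * 2 ^ j - 3) + 4) ≤
            κ * (rc n (κ - 1) + 4) + 3 * κ * 2 ^ j := by
          calc κ * (rc n (κ - 1) + (3 * 2 ^ j - 3) + 4) ≤
              κ * (rc n (κ - 1) + 3 * 2 ^ j + 4) := by gcongr; omega
            _ = _ := by ring
        have e7 : 2 * (3 * κ * 2 ^ j) ≤ s := by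
          calc 2 * (3 * κ * 2 ^ j) = 6 * κ * 2 ^ j := by ring
            _ ≤ s := hj1'
        omega
      · funext x
        exact (hl x).symm
    · -- counting
      have h1 := smallF_card n s (n / 2 + 1) (by rw [pow_succ]; omega)
      refine h1.trans (Nat.pow_le_pow_right (by norm_num) ?_)
      have hb72 : 72 ≤ 2 ^ b := by
        have : 2 ^ (b + 1) = 2 * 2 ^ b := by rw [pow_succ]; ring
        omega
      have h2 : (2 * (n / 2 + 1) + 3) * 12 ≤ 102 * 2 ^ b := by
        have : 2 ^ (b + 1) = 2 * 2 ^ b := by rw [pow_succ]; ring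
        omega
      calc (2 * (n / 2 + 1) + 3) * (s + 1) ≤ (2 * (n / 2 + 1) + 3) * (12 * κ * 2 ^ j) :=
            Nat.mul_le_mul_left _ hj2'
        _ = ((2 * (n / 2 + 1) + 3) * 12) * (κ * 2 ^ j) := by ring
        _ ≤ (102 * 2 ^ b) * (κ * 2 ^ j) := Nat.mul_le_mul_right _ h2
        _ = 2 ^ (b + j) * (102 * κ) := by rw [pow_add]; ring
    · -- the width
      have h1 := pow_ge_lin κ hκ10
      have h2 : 2 * 2 ^ (κ - 2) = 2 ^ (κ - 1) := by
        rw [← pow_succ']; congr 1; omega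
      rw [h2]
      have h3 : 2 ^ (κ - 1) * (102 * κ + 1) + 1 ≤ 2 ^ (κ - 1) * 2 ^ κ := by
        calc 2 ^ (κ - 1) * (102 * κ + 1) + 1 ≤ 2 ^ (κ - 1) * (102 * κ + 1) + 2 ^ (κ - 1) := by
              have : 1 ≤ 2 ^ (κ - 1) := Nat.one_le_two_pow
              omega
          _ = 2 ^ (κ - 1) * (102 * κ + 2) := by ring
          _ ≤ _ := Nat.mul_le_mul_left _ h1
      calc 2 ^ (102 * κ + 1) * (2 ^ (κ - 1) * (102 * κ + 1) + 1) ≤
          2 ^ (102 * κ + 1) * (2 ^ (κ - 1) * 2 ^ κ) := Nat.mul_le_mul_left _ h3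
        _ = 2 ^ (102 * κ + 1 + (κ - 1) + κ) := by
            rw [pow_add 2 (102 * κ + 1 + (κ - 1)) κ, pow_add 2 (102 * κ + 1) (κ - 1), mul_assoc]
        _ ≤ 2 ^ β := Nat.pow_le_pow_right (by norm_num) (by omega)
    · -- the problem
      intro T
      rw [hD T]
      constructor
      · rintro ⟨C, hC, h⟩
        refine ⟨C.eval, ?_, h⟩
        simp only [smallF, Finset.mem_filter, Finset.mem_univ, true_and]
        exact ⟨C, hC, rfl⟩
      · rintro ⟨F, hF, h⟩
        simp only [smallF, Finset.mem_filter, Finset.mem_univ, true_and] at hF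
        obtain ⟨C, hC, rfl⟩ := hF
        exact ⟨C, hC, h⟩
  exact hlow

end Pool.Agent.Results.MP_d2e5f8_lc.MonotoneExp
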