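import Pool.Agent.H561R2.RO.CircLB
import Pool.Agent.H561R2.RO.Comap
import Pool.Agent.H561R2.RO.PartialDefs

/-!
# Decomposable circuits for Partial MCSP

A decomposable circuit (`Circ`) reads the entries `T x` in `{0,1,*}` of a partial truth table. It
has unrestricted OR gates (nondeterminism), AND gates whose inputs depend on disjoint sets of
entries, and decision gates (with three outcomes) whose entry is not used below. The leaves may be
arbitrary functions of `N / 2 ^ 14` entries, where `N = 2 ^ n`. Nondeterministic read-once branching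
programs are a special case.

We show that such circuits for Partial MCSP with threshold `s` need `2 ^ (Ω (s log s))` gates, for
all `s` from `O (log N)` to `N / O ((log N) ^ 3)`, and `2 ^ (Ω (s log s / γ ^ 3))` gates if they
only have to tell threshold `s` from threshold `γ s`.
-/

namespace Pool.Agent.Results.MP_d2e5f8_lc.ReadOnceNondet

open Pool.Agent.H532R2.MC Pool.Agent.H561R2.RO

theorem result (n m k g s₁ s₂ S : ℕ) (hm : 1024 ≤ m) (hk : m ≤ 2 ^ k)
    (hm₁ : 4 * k + 2 * g + 23 ≤ m) (hm₂ : 3 * g + 22 ≤ m) (hnm : n * m ≤ 2 ^ m)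
    (hmn : m + 2 * k + 2 * g + 16 ≤ n)
    (hs₁ : 3 * 2 ^ m ≤ m * s₁) (h12 : s₁ ≤ s₂) (hs₂ : m * s₂ ≤ 2 ^ (m + g + 2))
    (C : Circ (Fin n → Bool) (Option Bool) S) (out : Fin S)
    (hleaf : C.LeafLE (2 ^ (n - (2 * g + 14))))
    (hyes : ∀ T : (Fin n → Bool) → Option Bool, PartialMCSP n T s₁ → C.Acc T out)
    (hno : ∀ T : (Fin n → Bool) → Option Bool, ¬PartialMCSP n T s₂ → ¬C.Acc T out) :
    2 ^ 2 ^ (m - (3 * g + 22)) ≤ S := by
  have htot : ∀ (f : BF n) (s : ℕ), PartialMCSP n (fun x => some (f x)) s ↔ SizeLE n f s := by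
    intro f s
    constructor
    · rintro ⟨f', h1, h2⟩
      have : f' = f := funext fun x => h2 x (f x) rfl
      rwa [← this]
    · intro h
      exact ⟨f, h, fun x b hx => by simpa using hx⟩
  refine lower_bound_circuits hk hm hm₁ hm₂ hnm hmn hs₁ h12 hs₂ (C.comap some) out
    (Circ.comap_leafLE hleaf) (fun f hf => ?_) (fun f hf => ?_)
  · exact Circ.comap_acc.2 (hyes _ ((htot f s₁).2 hf))
  · by_contra hcon
    exact hno _ (fun h => hcon ((htot f s₂).1 h)) (Circ.comap_acc.1 hf)

end Pool.Agent.Results.MP_d2e5f8_lc.ReadOnceNondet
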